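import Pool.Agent.H4.TA.Targets

/-!
# tas_modules, row WRD: walks and words
-/

set_option autoImplicit false

open Finset Pool.Agent.H43.TC Pool.Agent.H4.TA

namespace Pool.Agent.H39.TAS

theorem pf_WRD : T_WRD := by
  intro G _ k s φ hφ c b t
  induction t with
  | zero =>
    intro x
    rw [Fintype.sum_unique]
    by_cases h : c x = b
    · rw [ind_true]
      · simp [walks, h]
      · intro i hi
        obtain rfl : i = 0 := by omega
        simpa using h
    · rw [ind_false]
      · simp [walks, h]
      · intro h2
        have := h2 0 (le_refl 0)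
        simp at this
        exact h this
  | succ t ih =>
    intro x
    have hstep : ∑ w : Wd k (t + 1), ind (∀ i ≤ t + 1, c (x + φ (pos w i)) = b) =
        ∑ a : Fin k × Bool, ∑ w : Wd k t,
          ind (c x = b) * ind (∀ i ≤ t, c ((x + φ (stp a)) + φ (pos w i)) = b) := by
      rw [← Fintype.sum_prod_type']
      refine (Fintype.sum_equiv (Fin.consEquiv (fun _ : Fin (t + 1) => Fin k × Bool)) _ _ ?_).symm
      rintro ⟨a, w⟩
      show ind (c x = b) * ind (∀ i ≤ t, c ((x + φ (stp a)) + φ (pos w i)) = b) =
        ind (∀ i ≤ t + 1, c (x + φ (pos (Fin.cons a w : Wd k (t + 1)) i)) = b)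
      rw [← ind_and]
      apply ind_congr
      constructor
      · rintro ⟨h0, h1⟩ i hi
        rcases i with _ | i
        · simpa using h0
        · rw [pos_cons, map_add, ← add_assoc]
          exact h1 i (by omega)
      · intro h
        refine ⟨by simpa using h 0 (by omega), fun i hi => ?_⟩
        have := h (i + 1) (by omega)
        rwa [pos_cons, map_add, ← add_assoc] at this
    rw [hstep]
    by_cases h : c x = b
    · simp only [walks, h, if_true]
      push_cast
      rw [ind_true trivial, Fintype.sum_prod_type]
      refine sum_congr rfl fun i _ => ?_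
      rw [Fintype.sum_bool]
      simp only [one_mul]
      rw [ih, ih]
      have h1 : φ (stp ((i, true) : Fin k × Bool)) = s i := by simp [stp, hφ]
      have h2 : φ (stp ((i, false) : Fin k × Bool)) = -s i := by simp [stp, hφ]
      rw [h1, h2, ← sub_eq_add_neg]
    · simp only [walks, h, if_false]
      rw [ind_false not_false]
      simp

end Pool.Agent.H39.TAS
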